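import Pool.Agent.H32.UnderRec

/-!
# Under-recurrent functions without under-recurrent sets

An invertible ergodic system on a standard Borel space which has an under-recurrent function with
values in `[0, 1]` but no under-recurrent set: a `ZMod 6` extension of the 6-adic odometer. The
construction and the computations are in the imported helper file.
-/

open MeasureTheory Set

namespace Pool.Agent.Results.MP_73c876_an.NoUnderRecurrentSet

/-- `A` is an under-recurrent set of the system `(X, μ, T)`. -/
def UnderRecurrentSet {X : Type} [MeasurableSpace X] (μ : Measure X) (T : X → X) (A : Set X) :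
    Prop :=
  MeasurableSet A ∧ 0 < μ A ∧ μ A < 1 ∧ ∀ n : ℕ, 1 ≤ n → μ (A ∩ T^[n] ⁻¹' A) ≤ μ A ^ 2

/-- `f` is an under-recurrent function of the system `(X, μ, T)`. -/
def UnderRecurrentFun {X : Type} [MeasurableSpace X] (μ : Measure X) (T : X → X) (f : X → ℝ) :
    Prop :=
  MemLp f 2 μ ∧ (¬ ∃ c : ℝ, f =ᵐ[μ] fun _ => c) ∧
    ∀ n : ℕ, 1 ≤ n → ∫ x, f x * f (T^[n] x) ∂μ ≤ (∫ x, f x ∂μ) ^ 2

/-- There is an invertible ergodic system with an under-recurrent function with values in `[0,1]`
but with no under-recurrent set. -/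
theorem result : ∃ (X : Type) (_ : MeasurableSpace X) (μ : Measure X) (T : X ≃ᵐ X),
    StandardBorelSpace X ∧ IsProbabilityMeasure μ ∧ Ergodic T μ ∧
    (∃ f : X → ℝ, UnderRecurrentFun μ T f ∧ ∀ᵐ x ∂μ, 0 ≤ f x ∧ f x ≤ 1) ∧
    ¬ ∃ A : Set X, UnderRecurrentSet μ T A := by
  refine ⟨H32.UnderRec.X, inferInstance, H32.UnderRec.lam, H32.UnderRec.Te, inferInstance,
    inferInstance, H32.UnderRec.T_ergodic, ⟨H32.UnderRec.F, ⟨?_, H32.UnderRec.F_not_const, ?_⟩,
    Filter.Eventually.of_forall H32.UnderRec.F_range⟩, ?_⟩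
  · apply MemLp.of_bound H32.UnderRec.measurable_F.aestronglyMeasurable 1
    filter_upwards with x
    rw [Real.norm_eq_abs, abs_of_nonneg (H32.UnderRec.F_range x).1]
    exact (H32.UnderRec.F_range x).2
  · intro n hn
    exact (H32.UnderRec.corr_F_eq hn).le
  · rintro ⟨A, hA, h0, h1, h⟩
    have hne : H32.UnderRec.lam A ≠ ⊤ := measure_ne_top _ _
    have key := H32.UnderRec.no_set hA (fun n hn => by
      have := h n hn
      rw [measureReal_def, measureReal_def, ← ENNReal.toReal_pow]
      exact (ENNReal.toReal_le_toReal (measure_ne_top _ _) (ENNReal.pow_ne_top hne)).mpr this)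
    rw [measureReal_def] at key
    rcases key with k | k
    · rw [ENNReal.toReal_eq_zero_iff] at k
      rcases k with k | k
      · exact h0.ne' k
      · exact hne k
    · rw [← ENNReal.toReal_one, ENNReal.toReal_eq_toReal_iff' hne ENNReal.one_ne_top] at k
      exact h1.ne k

end Pool.Agent.Results.MP_73c876_an.NoUnderRecurrentSet
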